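import Mathlib

set_option autoImplicit false

/-!
# Project CD (MP_ede3c6_co): the cubical dimension of caterpillars

GOAL. `D` = the maximum degree of the caterpillar `C(a_1,...,a_k)`. If `k + 4 ≤ 5 * 2 ^ p` with `p + 4 r ≤ D`, `p ≤ r ^ 2`, `r` odd
(so for all `k ≤ 2 ^ (D - O(sqrt D))`) or `k ≤ D + 1`, then the cubical dimension is `D` or `D + 1`; it is `D + 1` if and only if there are
two spine vertices of degree `D` at even distance such that no spine vertex between them, at even distance from both, has degree `≤ D - 2`.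

Every part is a `def S_XXX : Prop`; a proof is a theorem `s_XXX (hypotheses) : S_XXX` in the file
`Pool/Agent/L7hNN/CD/Xxx.lean`, namespace `Pool.Agent.L7hNN.CD`, which imports this file.
-/

namespace Pool.Agent.L7h95.CD

open Finset Function

/-- The hypercube: two vectors are adjacent when they differ in exactly one coordinate. -/
def Q (n : ℕ) : SimpleGraph (Fin n → Bool) where
  Adj x y := (univ.filter fun i => x i ≠ y i).card = 1
  symm := ⟨fun x y h => by simpa only [ne_comm] using h⟩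
  loopless := ⟨fun x h => by simp at h⟩

/-- The caterpillar with spine `v_0, ..., v_{k-1}` and `a i` leaves at `v_i`. -/
def Cat (k : ℕ) (a : Fin k → ℕ) : SimpleGraph (Fin k ⊕ (Σ i : Fin k, Fin (a i))) where
  Adj u v := match u, v with
    | .inl i, .inl j => i.1 + 1 = j.1 ∨ j.1 + 1 = i.1
    | .inl i, .inr l => l.1 = i
    | .inr l, .inl i => l.1 = i
    | .inr _, .inr _ => False
  symm := ⟨fun u v h => by
    rcases u with i | l <;> rcases v with j | l' <;> simp_all [or_comm]⟩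
  loopless := ⟨fun u h => by
    rcases u with i | l <;> simp at h⟩

/-- `G` is isomorphic to a subgraph of the hypercube of dimension `n`. -/
def EmbQ {V : Type} (G : SimpleGraph V) (n : ℕ) : Prop :=
  ∃ f : V → (Fin n → Bool), Injective f ∧ ∀ u v, G.Adj u v → (Q n).Adj (f u) (f v)

/-- the cubical dimension -/
noncomputable def cd {V : Type} (G : SimpleGraph V) : ℕ := sInf {n | 1 ≤ n ∧ EmbQ G n}

/-- the degree of the spine vertex `i` -/
def dg (k : ℕ) (a : Fin k → ℕ) (i : Fin k) : ℕ :=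
  a i + (if i.1 = 0 then 0 else 1) + (if i.1 + 1 = k then 0 else 1)

/-- Between two spine vertices of degree `D` at even distance there is a spine vertex of degree at most
`D - 2` at even distance from both. -/
def Sep (k : ℕ) (a : Fin k → ℕ) (D : ℕ) : Prop :=
  ∀ i j : Fin k, i.1 < j.1 → i.1 % 2 = j.1 % 2 → dg k a i = D → dg k a j = D →
    ∃ h : Fin k, i.1 < h.1 ∧ h.1 < j.1 ∧ h.1 % 2 = i.1 % 2 ∧ dg k a h + 2 ≤ D

/-- the range of the theorem -/
def Short (k n : ℕ) : Prop :=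
  k ≤ n + 1 ∨ ∃ p r, Odd r ∧ p ≤ r ^ 2 ∧ p + 4 * r ≤ n ∧ k + 4 ≤ 5 * 2 ^ p

/-! ### internal notions -/

/-- embeddings in the cube `(Fin n → ZMod 2)` -/
def IsE (n k : ℕ) (a : Fin k → ℕ) (f : (Fin k ⊕ (Σ i : Fin k, Fin (a i))) → Fin n → ZMod 2) : Prop :=
  Injective f ∧ ∀ u v, (Cat k a).Adj u v → hammingDist (f u) (f v) = 1

/-- a path with large distances between its vertices -/
structure Snake (n k : ℕ) (X : ℕ → Fin n → ZMod 2) : Prop where
  step : ∀ i, i + 1 < k → hammingDist (X i) (X (i + 1)) = 1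
  far : ∀ i j, i < j → j < k → min 3 (j - i) ≤ hammingDist (X i) (X j)

/-- the code -/
def Code {p r : ℕ} (φ : Fin p → Fin 4 → Fin r) : Prop :=
  ∀ i j, i ≠ j → (univ.filter fun g => φ i g = φ j g).card ≤ 1

/-- Gray codes: `γ v` differs from `γ (v + 1)` in the coordinate `c v`. -/
structure Gray (p : ℕ) (c : ℕ → Fin p) (γ : ℕ → Fin p → ZMod 2) : Prop where
  step : ∀ t, t + 1 < 2 ^ p → γ (t + 1) = γ t + Pi.single (c t) 1
  inj : ∀ u v, u < v → v < 2 ^ p → γ u ≠ γ v

/-- The vertex with Gray part `γ v` and check part `∑ j, γ v j • H j` plus the elements `m, ..., 3` of `H (c (v - 1))`,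
where `H j` is the set of the `(g, φ j g)`. -/
def yv {p r : ℕ} (φ : Fin p → Fin 4 → Fin r) (c : ℕ → Fin p) (γ : ℕ → Fin p → ZMod 2) (v m : ℕ) :
    Fin p ⊕ (Fin 4 × Fin r) → ZMod 2
  | .inl j => γ v j
  | .inr gz => (∑ j, γ v j * (if φ j gz.1 = gz.2 then 1 else 0)) +
      (if m ≤ gz.1.1 ∧ φ (c (v - 1)) gz.1 = gz.2 then 1 else 0)

/-! ### the parts -/

/-- NB (20 lines, no hypotheses). -/
def S_NB : Prop := ∀ (ι : Type) [Fintype ι] [DecidableEq ι] (x y : ι → ZMod 2),
  hammingDist x y = 1 ↔ ∃ c, y = x + Pi.single c 1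

/-- CNT (60 lines), hypothesis NB. The tree neighbours of `v_i` (there are `dg k a i` of them) are mapped to cube neighbours of `f (v_i)` (there are `n` of them).

Proof. The images of the tree neighbours: `a i` leaves, `v_{i-1}` if `i > 0`, `v_{i+1}` if `i + 1 < k`; they are different and different from the
elements of `W`; everything is in the set of the `n` points `f (v_i) + Pi.single c 1`. -/
def S_CNT : Prop := ∀ (n k : ℕ) (a : Fin k → ℕ) (f : (Fin k ⊕ (Σ i : Fin k, Fin (a i))) → Fin n → ZMod 2),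
  IsE n k a f → ∀ (i : Fin k) (W : Finset (Fin n → ZMod 2)),
    (∀ w ∈ W, hammingDist (f (.inl i)) w = 1 ∧ ∀ u, (Cat k a).Adj (.inl i) u → f u ≠ w) →
    dg k a i + W.card ≤ n

/-- LOW (80 lines), hypotheses NB, CNT. The lower bound.

Proof. Let `x_m = f (v_m)`; `w_m = x_m + x_{m+1} + x_{m+2}` is the second common cube neighbour of `x_m` and `x_{m+2}` (`w_m ≠ x_{m+1}`). Let `A_s` be
the set of the images of the tree neighbours of `v_s`. Claim, for `m = i, i + 2, ..., j - 2`: `w_m ∈ A_s` for some `s ≤ m`. For `m = i` by CNT (`dg = n`, `W = {w}`), `s = i`.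
If the claim holds for `m` then `w_m ∉ A_{m+2}`: otherwise `w_m = f u`, and `u` is a common tree neighbour of `v_s` and `v_{m+2}`, `s ≤ m`, so
`s = m` and `u = v_{m+1}`, contradiction. So `dg (m + 2) + 1 ≤ n` by CNT, a contradiction if `m + 2 = j`. If `m + 2 < j` then
`dg (m + 2) + 1 ≥ n`: either `w_{m+2} = w_m` (claim for `m + 2` with the same `s`) or by CNT with `W = {w_m, w_{m+2}}` we get `w_{m+2} ∈ A_{m+2}`. -/
def S_LOW : Prop := ∀ (n k : ℕ) (a : Fin k → ℕ) (f : (Fin k ⊕ (Σ i : Fin k, Fin (a i))) → Fin n → ZMod 2),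
  IsE n k a f → ∀ i j : Fin k, i.1 < j.1 → i.1 % 2 = j.1 % 2 → dg k a i = n → dg k a j = n →
    (∀ h : Fin k, i.1 < h.1 → h.1 < j.1 → h.1 % 2 = i.1 % 2 → n ≤ dg k a h + 1) → False

/-- UPP (150 lines), hypothesis NB. The embedding given by a snake `X` and a rule `G`: the second common neighbour
`X i + X (i+1) + X (i+2)` of `X i` and `X (i+2)` may be used by `i + 2` if `G (i + 2)`, by `i` otherwise.

Proof. Let `F i` be the set of `X (i+1)` (if `i + 1 < k`), `X (i-1)` (if `1 ≤ i`), `X (i-2) + X (i-1) + X i` (if `2 ≤ i` and not `G i`), `X i + X (i+1) + X (i+2)` (if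
`i + 2 < k` and `G (i+2)`). The `n` neighbours of `X i` not in `F i` are at least `a i`; map the leaves at `v_i` to different ones of them, and `v_i` to `X i`.
Injective: `X` is injective by `far`. If a leaf at `i` is mapped to `X j` then `hammingDist (X i) (X j) = 1`, so by `far` `|i - j| = 1`, excluded by `F i`. If
leaves at `i < j` have the same image `y` then `hammingDist (X i) (X j) ≤ 2`, so `j ≤ i + 2` by `far`; `j = i + 1` is impossible by parity (`X j = X i + e_c`, and `X j = X i + e_a + e_b`);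
`j = i + 2`: `y` is `X (i+1)` or `X i + X (i+1) + X (i+2)`, the first one is in `F i`, the second one in `F i` or in `F (i+2)`. -/
def S_UPP : Prop := ∀ (n k : ℕ) (a : Fin k → ℕ) (X : ℕ → Fin n → ZMod 2) (G : ℕ → Prop),
  Snake n k X → (∀ i : Fin k, (2 ≤ i.1 ∧ ¬ G i.1 → i.1 + 2 < k ∧ G (i.1 + 2) → dg k a i + 2 ≤ n) ∧
    (2 ≤ i.1 ∧ ¬ G i.1 ∨ i.1 + 2 < k ∧ G (i.1 + 2) → dg k a i + 1 ≤ n) ∧ dg k a i ≤ n) →
  ∃ f, IsE n k a f

/-- TOK (40 lines, no hypotheses). The rule `G`.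

Proof. `G j` iff there is `h : Fin k` with `j ≤ h`, `h % 2 = j % 2`, `dg h = D` and `dg m + 1 = D` for all `m` with `j ≤ m < h`, `m % 2 = j % 2`. If `dg i = D` then
`G i`, and not `G (i+2)` by `Sep`. If `dg i + 1 = D` then `G (i+2)` implies `G i`. -/
def S_TOK : Prop := ∀ (k : ℕ) (a : Fin k → ℕ) (D : ℕ), (∀ i, dg k a i ≤ D) → Sep k a D →
  ∃ G : ℕ → Prop, ∀ i : Fin k, (2 ≤ i.1 ∧ ¬ G i.1 → i.1 + 2 < k ∧ G (i.1 + 2) → dg k a i + 2 ≤ D) ∧
    (2 ≤ i.1 ∧ ¬ G i.1 ∨ i.1 + 2 < k ∧ G (i.1 + 2) → dg k a i + 1 ≤ D) ∧ dg k a i ≤ D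

/-- COD (30 lines, no hypotheses). `j ↦ (x, y)` injective to `ZMod r × ZMod r`, and `φ j = (x, y, x + y, x + 2 y)`. -/
def S_COD : Prop := ∀ p r : ℕ, Odd r → p ≤ r ^ 2 → ∃ φ : Fin p → Fin 4 → Fin r, Code φ

/-- GRA (60 lines, no hypotheses). For instance `c t = padicValNat 2 (t + 1)` (with value 0 if this is not `< p`): in each nonempty window `[u, v)` the largest value
`M` of `c` appears exactly once (between two odd multiples of `2 ^ M` there is a multiple of `2 ^ (M + 1)`), so `γ u M ≠ γ v M`. Or by induction on `p`: the words `W, p, W`. -/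
def S_GRA : Prop := ∀ p, 1 ≤ p → ∃ c γ, Gray p c γ

/-- DI1 (50 lines, no hypotheses). Vertices with the same Gray part. -/
def S_DI1 : Prop := ∀ (p r : ℕ) (φ : Fin p → Fin 4 → Fin r) (c : ℕ → Fin p) (γ : ℕ → Fin p → ZMod 2)
  (v m m' : ℕ), m ≤ m' → m' ≤ 4 → hammingDist (yv φ c γ v m) (yv φ c γ v m') = m' - m

/-- DI2 (100 lines, no hypotheses). Consecutive Gray parts.

Proof. `γ (v+1) + γ v` is the unit vector of `B = c v`; let `A = c (v-1)`. The check parts differ in the group `g` at `φ B g` if `g < m'` and at `φ A g` if `g ≥ m`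
(in no point if both hold and `φ A g = φ B g`, which happens for at most one `g`, and only if `m < m'`, as `A ≠ B` if `m < 4`; `A ≠ B` because `γ (v-1) ≠ γ (v+1)`). So the distance is `1 + m' + (4 - m)`, or this minus 2 and `m < m'`. -/
def S_DI2 : Prop := ∀ (p r : ℕ) (φ : Fin p → Fin 4 → Fin r) (c : ℕ → Fin p) (γ : ℕ → Fin p → ZMod 2),
  Code φ → Gray p c γ → ∀ (v m m' : ℕ), m ≤ 4 → m' ≤ 4 → (v = 0 → m = 4) → v + 1 < 2 ^ p →
    hammingDist (yv φ c γ v m) (yv φ c γ (v + 1) m') = 5 + m' - m ∨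
    (m < m' ∧ 4 ≤ hammingDist (yv φ c γ v m) (yv φ c γ (v + 1) m'))

/-- DI3 (120 lines, no hypotheses). Other Gray parts.

Proof. Let `O` be the support of `γ v + γ v'`, `A = c (v-1)`, `B = c (v'-1)`. If `O` has at least 3 elements we are done. `O` is not empty, it is not `{B}` (as `γ v ≠ γ (v'-1)`), and if `m < 4` (so `1 ≤ v`) it is not `{A}` (as `γ (v-1) ≠ γ v'`) and
not `{A, B}` with `A ≠ B` (as `γ (v-1) ≠ γ (v'-1)`). So there is `i ∈ O`, `i ≠ B`, and `i ≠ A` if `m < 4`. The check parts differ at `(g, φ i g)` for all `g` such that `φ i g ≠ φ j g` for all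
`j ∈ O \ {i}`, `φ i g ≠ φ B g` and (if `m < 4`) `φ i g ≠ φ A g`, so for at least `4 - (|O| - 1) - 2 = 3 - |O|` values of `g`. -/
def S_DI3 : Prop := ∀ (p r : ℕ) (φ : Fin p → Fin 4 → Fin r) (c : ℕ → Fin p) (γ : ℕ → Fin p → ZMod 2),
  Code φ → Gray p c γ → ∀ (v v' m m' : ℕ), m ≤ 4 → m' ≤ 4 → (v = 0 → m = 4) → v + 1 < v' → v' < 2 ^ p →
    3 ≤ hammingDist (yv φ c γ v m) (yv φ c γ v' m')

/-- SNK (60 lines), hypotheses COD, GRA, DI1, DI2, DI3. `X i = yv ((i+4)/5) ((i+4)%5)`, transported from `Fin p ⊕ Fin 4 × Fin r` to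
`Fin n` by an injection (zero on the other coordinates). (`p = 0`: `k ≤ 1`.) -/
def S_SNK : Prop := ∀ (p r n k : ℕ), Odd r → p ≤ r ^ 2 → p + 4 * r ≤ n → k + 4 ≤ 5 * 2 ^ p →
  ∃ X, Snake n k X

/-- GEO (20 lines, no hypotheses). `X i c = 1` if `c < i`, `0` otherwise. -/
def S_GEO : Prop := ∀ (n k : ℕ), k ≤ n + 1 → ∃ X, Snake n k X

/-- FIN (80 lines), hypotheses LOW, CNT, UPP, TOK, SNK, GEO. The theorem. (`hammingDist_comp` for the change from `ZMod 2` to `Bool`; for `n = D + 1` the rule is `G = False`.) -/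
def S_FIN : Prop := ∀ (k : ℕ) (a : Fin k → ℕ) (D : ℕ), 1 ≤ D → (∀ i, dg k a i ≤ D) →
  (∃ i, dg k a i = D) →
    (¬ Sep k a D → ∀ n, EmbQ (Cat k a) n → D + 1 ≤ n) ∧
    (Short k D → (Sep k a D → cd (Cat k a) = D) ∧ (¬ Sep k a D → cd (Cat k a) = D + 1)) ∧
    ∀ n, D + 1 ≤ n → Short k n → cd (Cat k a) ≤ n

end Pool.Agent.L7h95.CD
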