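import Pool.Agent.L7h95.CD.Fin

set_option autoImplicit false

/-!
# Project CD: the criterion
-/

namespace Pool.Agent.L7h95.CD

open Finset Function

theorem short_of (n k : ℕ) (h : k ≤ 2 ^ (n - 4 * Nat.sqrt n - 8)) : Short k n := by
  rcases Nat.lt_or_ge n (4 * Nat.sqrt n + 8) with hn | hn
  · have h1 : n - 4 * Nat.sqrt n - 8 = 0 := by omega
    rw [h1, pow_zero] at h
    exact Or.inl (by omega)
  · have hs : n < (Nat.sqrt n + 1) * (Nat.sqrt n + 1) := Nat.lt_succ_sqrt n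
    obtain ⟨r, hr1, hr2, hr3⟩ : ∃ r, Odd r ∧ Nat.sqrt n + 1 ≤ r ∧ r ≤ Nat.sqrt n + 2 := by
      rcases Nat.even_or_odd (Nat.sqrt n) with h2 | h2
      · exact ⟨Nat.sqrt n + 1, h2.add_one, by omega, by omega⟩
      · exact ⟨Nat.sqrt n + 2, by
          obtain ⟨m, hm⟩ := h2
          exact ⟨m + 1, by omega⟩, by omega, by omega⟩
    refine Or.inr ⟨n - 4 * r, r, hr1, ?_, by omega, ?_⟩
    · have h3 : (Nat.sqrt n + 1) * (Nat.sqrt n + 1) ≤ r * r := Nat.mul_le_mul hr2 hr2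
      rw [pow_two]
      omega
    · have h4 : 2 ^ (n - 4 * Nat.sqrt n - 8) ≤ 2 ^ (n - 4 * r) :=
        Nat.pow_le_pow_right (by norm_num) (by omega)
      have h5 : 1 ≤ 2 ^ (n - 4 * r) := Nat.one_le_two_pow
      omega

/-- The theorem. -/
def S_MAIN : Prop := ∀ (k : ℕ) (a : Fin k → ℕ) (D : ℕ), 1 ≤ D → (∀ i, dg k a i ≤ D) →
  (∃ i, dg k a i = D) →
    (∀ n, EmbQ (Cat k a) n → D < n ∨ D = n ∧ Sep k a D) ∧
    (∀ n, Short k n → (D < n ∨ D = n ∧ Sep k a D) → EmbQ (Cat k a) n) ∧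
    (Short k D → (Sep k a D → cd (Cat k a) = D) ∧ (¬ Sep k a D → cd (Cat k a) = D + 1))

theorem s_MAIN (hLOW : S_LOW) (hCNT : S_CNT) (hUPP : S_UPP) (hTOK : S_TOK) (hSNK : S_SNK)
    (hGEO : S_GEO) : S_MAIN := by
  intro k a D hD1 hD hD'
  have hF := s_FIN hLOW hCNT hUPP hTOK hSNK hGEO k a D hD1 hD hD'
  have hsn : ∀ n, Short k n → ∃ X, Snake n k X := by
    rintro n (h | ⟨p, r, h1, h2, h3, h4⟩)
    · exact hGEO n k h
    · exact hSNK p r n k h1 h2 h3 h4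
  refine ⟨fun n hn => ?_, ?_, hF.2.1⟩
  · have h0 : D ≤ n := by
      obtain ⟨f, hf⟩ := (embQ_iff' n k a).1 hn
      obtain ⟨i, hi⟩ := hD'
      have h1 := hCNT n k a f hf i ∅ (by simp)
      simp only [Finset.card_empty, add_zero, hi] at h1
      exact h1
    rcases Nat.lt_or_ge D n with h | h
    · exact Or.inl h
    · refine Or.inr ⟨by omega, ?_⟩
      by_contra hS
      have := hF.1 hS n hn
      omega
  · rintro n hs (h | ⟨rfl, hS⟩)
    · obtain ⟨X, hX⟩ := hsn n hs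
      refine (embQ_iff' n k a).2 (hUPP n k a X (fun _ => False) hX fun i => ?_)
      have h1 := hD i
      refine ⟨fun _ h => h.2.elim, fun _ => ?_, ?_⟩ <;> omega
    · obtain ⟨X, hX⟩ := hsn D hs
      obtain ⟨G, hG⟩ := hTOK k a D hD hS
      exact (embQ_iff' D k a).2 (hUPP D k a X G hX hG)

end Pool.Agent.L7h95.CD
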