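import Pool.Agent.L7h95.CD.Stm

set_option autoImplicit false

/-!
# Project CD, second stage: longer snakes

The same construction with `w ≥ 3 l + 1` groups instead of 4 and a code in which two words agree in at most `l` places (polynomials of degree `≤ l`
over `ZMod r`, `r` prime) instead of 1. So `p + (3 l + 1) r ≤ n` with `p ≤ r ^ (l + 1)`: spines of length `2 ^ (n - O((log n) ^ 2))`.
-/

namespace Pool.Agent.L7h95.CD

open Finset Function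

/-- the code -/
def CodeW {p r w : ℕ} (l : ℕ) (φ : Fin p → Fin w → Fin r) : Prop :=
  ∀ i j, i ≠ j → (univ.filter fun g => φ i g = φ j g).card ≤ l

/-- The vertex with Gray part `γ v` and check part `∑ j, γ v j • H j` plus the elements `m, ..., w - 1` of `H (c (v - 1))`,
where `H j` is the set of the `(g, φ j g)`. -/
def yw {p r w : ℕ} (φ : Fin p → Fin w → Fin r) (c : ℕ → Fin p) (γ : ℕ → Fin p → ZMod 2) (v m : ℕ) :
    Fin p ⊕ (Fin w × Fin r) → ZMod 2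
  | .inl j => γ v j
  | .inr gz => (∑ j, γ v j * (if φ j gz.1 = gz.2 then 1 else 0)) +
      (if m ≤ gz.1.1 ∧ φ (c (v - 1)) gz.1 = gz.2 then 1 else 0)

/-- CO2 (40 lines). Polynomials of degree `≤ l` over `ZMod r`, evaluated at `w` different points
(`Polynomial.eq_of_degrees_lt_of_eval_finset_eq` or the number of roots). -/
def S_CO2 : Prop := ∀ p r w l : ℕ, r.Prime → w ≤ r → p ≤ r ^ (l + 1) →
  ∃ φ : Fin p → Fin w → Fin r, CodeW l φ

/-- DJ1, as DI1. -/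
def S_DJ1 : Prop := ∀ (p r w : ℕ) (φ : Fin p → Fin w → Fin r) (c : ℕ → Fin p) (γ : ℕ → Fin p → ZMod 2)
  (v m m' : ℕ), m ≤ m' → m' ≤ w → hammingDist (yw φ c γ v m) (yw φ c γ v m') = m' - m

/-- DJ2, as DI2. With `x` = the number of `g`, `m ≤ g < m'`, `φ A g = φ B g`, `x ≤ l`, `x ≤ m' - m`, the distance is `w + 1 + m' - m - 2 x`;
if `x ≥ 1` it is at least `w + 1 - x ≥ 2 l + 2 ≥ 4`. -/
def S_DJ2 : Prop := ∀ (p r w l : ℕ) (φ : Fin p → Fin w → Fin r) (c : ℕ → Fin p) (γ : ℕ → Fin p → ZMod 2),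
  1 ≤ l → 3 * l + 1 ≤ w →
  CodeW l φ → Gray p c γ → ∀ (v m m' : ℕ), m ≤ w → m' ≤ w → (v = 0 → m = w) → v + 1 < 2 ^ p →
    hammingDist (yw φ c γ v m) (yw φ c γ (v + 1) m') = w + 1 + m' - m ∨
    (m < m' ∧ 4 ≤ hammingDist (yw φ c γ v m) (yw φ c γ (v + 1) m'))

/-- DJ3, as DI3. The check parts differ in at least `w - (|O| + 1) * l` groups, which is `≥ 3 - |O|` for `|O| = 1, 2`. -/
def S_DJ3 : Prop := ∀ (p r w l : ℕ) (φ : Fin p → Fin w → Fin r) (c : ℕ → Fin p) (γ : ℕ → Fin p → ZMod 2),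
  1 ≤ l → 3 * l + 1 ≤ w →
  CodeW l φ → Gray p c γ → ∀ (v v' m m' : ℕ), m ≤ w → m' ≤ w → (v = 0 → m = w) → v + 1 < v' →
    v' < 2 ^ p → 3 ≤ hammingDist (yw φ c γ v m) (yw φ c γ v' m')

/-- SN2, as SNK. Hypotheses CO2, GRA, DJ1, DJ2, DJ3. `w = 3 l + 1`, `X i = yw ((i + w) / (w + 1)) ((i + w) % (w + 1))`. -/
def S_SN2 : Prop := ∀ (p r l n k : ℕ), r.Prime → 1 ≤ l → 3 * l + 1 ≤ r → p ≤ r ^ (l + 1) →
  p + (3 * l + 1) * r ≤ n → k + (3 * l + 1) ≤ (3 * l + 2) * 2 ^ p → ∃ X, Snake n k X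

end Pool.Agent.L7h95.CD
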