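import Pool.Agent.L7h95.CD.Crit
import Pool.Agent.L7h95.CD.Stm2

set_option autoImplicit false

/-!
# Project CD: the criterion, second stage
-/

namespace Pool.Agent.L7h95.CD

open Finset Function

/-- the range of the theorem -/
def Short2 (k n : ℕ) : Prop :=
  Short k n ∨ ∃ p r l, r.Prime ∧ 1 ≤ l ∧ 3 * l + 1 ≤ r ∧ p ≤ r ^ (l + 1) ∧
    p + (3 * l + 1) * r ≤ n ∧ k + (3 * l + 1) ≤ (3 * l + 2) * 2 ^ p

theorem short2_of (n k : ℕ) (h : k ≤ 2 ^ (n - 2 * (3 * Nat.log 2 n + 1) ^ 2)) : Short2 k n := by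
  rcases Nat.lt_or_ge n (2 * (3 * Nat.log 2 n + 1) ^ 2) with hn | hn
  · have h1 : n - 2 * (3 * Nat.log 2 n + 1) ^ 2 = 0 := by omega
    rw [h1, pow_zero] at h
    exact Or.inl (Or.inl (by omega))
  · have hn2 : 2 ≤ n := by
      have : 1 ≤ (3 * Nat.log 2 n + 1) ^ 2 := Nat.one_le_pow _ _ (by omega)
      omega
    have hl : 1 ≤ Nat.log 2 n := Nat.log_pos (by norm_num) hn2
    generalize hw : 3 * Nat.log 2 n + 1 = w at *
    obtain ⟨r, hr1, hr2, hr3⟩ := Nat.exists_prime_lt_and_le_two_mul w (by omega)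
    have h4 : w * r ≤ 2 * w ^ 2 := by nlinarith
    refine Or.inr ⟨n - w * r, r, Nat.log 2 n, hr1, hl, by omega, ?_, ?_, ?_⟩
    · have h5 : n < 2 ^ (Nat.log 2 n + 1) := Nat.lt_pow_succ_log_self (by norm_num) n
      have h6 : 2 ^ (Nat.log 2 n + 1) ≤ r ^ (Nat.log 2 n + 1) :=
        Nat.pow_le_pow_left hr1.two_le _
      omega
    · rw [hw]; omega
    · have h7 : 3 * Nat.log 2 n + 2 = w + 1 := by omega
      rw [hw, h7]
      have h8 : 2 ^ (n - 2 * w ^ 2) ≤ 2 ^ (n - w * r) :=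
        Nat.pow_le_pow_right (by norm_num) (by omega)
      have h9 : 1 ≤ 2 ^ (n - w * r) := Nat.one_le_two_pow
      nlinarith

/-- The theorem for a range given by snakes. -/
theorem main_of (hLOW : S_LOW) (hCNT : S_CNT) (hUPP : S_UPP) (hTOK : S_TOK) (k : ℕ)
    (a : Fin k → ℕ) (D : ℕ) (hD1 : 1 ≤ D) (hD : ∀ i, dg k a i ≤ D) (hD' : ∃ i, dg k a i = D)
    (P : ℕ → Prop) (hP : ∀ n, P n → ∃ X, Snake n k X) (hP1 : P D → P (D + 1)) :
    (∀ n, EmbQ (Cat k a) n → D < n ∨ D = n ∧ Sep k a D) ∧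
    (∀ n, P n → (D < n ∨ D = n ∧ Sep k a D) → EmbQ (Cat k a) n) ∧
    (P D → (Sep k a D → cd (Cat k a) = D) ∧ (¬ Sep k a D → cd (Cat k a) = D + 1)) := by
  have hnec : ∀ n, EmbQ (Cat k a) n → D < n ∨ D = n ∧ Sep k a D := by
    intro n hn
    obtain ⟨f, hf⟩ := (embQ_iff' n k a).1 hn
    have h0 : D ≤ n := by
      obtain ⟨i, hi⟩ := hD'
      have h1 := hCNT n k a f hf i ∅ (by simp)
      simp only [Finset.card_empty, add_zero, hi] at h1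
      exact h1
    rcases Nat.lt_or_ge D n with h | h
    · exact Or.inl h
    · have h2 : D = n := by omega
      subst h2
      refine Or.inr ⟨rfl, ?_⟩
      by_contra hS
      unfold Sep at hS
      push Not at hS
      obtain ⟨i, j, h3, h4, h5, h6, h7⟩ := hS
      refine hLOW D k a f hf i j h3 h4 h5 h6 fun h h8 h9 h10 => ?_
      have h11 := h7 h h8 h9 h10
      omega
  have hsuf : ∀ n, P n → (D < n ∨ D = n ∧ Sep k a D) → EmbQ (Cat k a) n := by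
    rintro n hs (h | ⟨rfl, hS⟩)
    · obtain ⟨X, hX⟩ := hP n hs
      refine (embQ_iff' n k a).2 (hUPP n k a X (fun _ => False) hX fun i => ?_)
      have h1 := hD i
      refine ⟨fun _ h => h.2.elim, fun _ => ?_, ?_⟩ <;> omega
    · obtain ⟨X, hX⟩ := hP D hs
      obtain ⟨G, hG⟩ := hTOK k a D hD hS
      exact (embQ_iff' D k a).2 (hUPP D k a X G hX hG)
  refine ⟨hnec, hsuf, fun hs => ⟨fun hS => ?_, fun hS => ?_⟩⟩
  · have h1 : D ∈ {n | 1 ≤ n ∧ EmbQ (Cat k a) n} := ⟨hD1, hsuf D hs (Or.inr ⟨rfl, hS⟩)⟩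
    refine le_antisymm (Nat.sInf_le h1) ?_
    rcases hnec _ (Nat.sInf_mem ⟨D, h1⟩).2 with h | h
    · exact h.le
    · exact h.1.le
  · have h1 : D + 1 ∈ {n | 1 ≤ n ∧ EmbQ (Cat k a) n} :=
      ⟨by omega, hsuf (D + 1) (hP1 hs) (Or.inl (by omega))⟩
    refine le_antisymm (Nat.sInf_le h1) ?_
    rcases hnec _ (Nat.sInf_mem ⟨D + 1, h1⟩).2 with h | h
    · exact h
    · exact (hS h.2).elim

theorem s_MAIN2 (hLOW : S_LOW) (hCNT : S_CNT) (hUPP : S_UPP) (hTOK : S_TOK) (hSNK : S_SNK)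
    (hSN2 : S_SN2) (hGEO : S_GEO) (k : ℕ)
    (a : Fin k → ℕ) (D : ℕ) (hD1 : 1 ≤ D) (hD : ∀ i, dg k a i ≤ D) (hD' : ∃ i, dg k a i = D) :
    (∀ n, EmbQ (Cat k a) n → D < n ∨ D = n ∧ Sep k a D) ∧
    (∀ n, Short2 k n → (D < n ∨ D = n ∧ Sep k a D) → EmbQ (Cat k a) n) ∧
    (Short2 k D → (Sep k a D → cd (Cat k a) = D) ∧ (¬ Sep k a D → cd (Cat k a) = D + 1)) := by
  refine main_of hLOW hCNT hUPP hTOK k a D hD1 hD hD' (Short2 k) ?_ ?_
  · rintro n ((h | ⟨p, r, h1, h2, h3, h4⟩) | ⟨p, r, l, h1, h2, h3, h4, h5, h6⟩)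
    · exact hGEO n k h
    · exact hSNK p r n k h1 h2 h3 h4
    · exact hSN2 p r l n k h1 h2 h3 h4 h5 h6
  · rintro ((h | ⟨p, r, h1, h2, h3, h4⟩) | ⟨p, r, l, h1, h2, h3, h4, h5, h6⟩)
    · exact Or.inl (Or.inl (by omega))
    · exact Or.inl (Or.inr ⟨p, r, h1, h2, by omega, h4⟩)
    · exact Or.inr ⟨p, r, l, h1, h2, h3, h4, by omega, h6⟩

end Pool.Agent.L7h95.CD
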