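import Pool.Agent.L7h95.CD.Stm

set_option autoImplicit false

/-!
# Project CD, part FIN: the assembly
-/

namespace Pool.Agent.L7h95.CD

open Finset Function

/-- a bijection -/
def zb : ZMod 2 ≃ Bool := finTwoEquiv

theorem embQ_iff {V : Type} (G : SimpleGraph V) (n : ℕ) :
    EmbQ G n ↔ ∃ f : V → Fin n → ZMod 2, Injective f ∧
      ∀ u v, G.Adj u v → hammingDist (f u) (f v) = 1 := by
  constructor
  · rintro ⟨f, h1, h2⟩
    refine ⟨fun u i => zb.symm (f u i), fun u v h => h1 ?_, fun u v h => ?_⟩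
    · funext i
      exact zb.symm.injective (congrFun h i)
    · have h3 := h2 u v h
      rw [hammingDist_comp (fun _ => zb.symm) (fun _ => zb.symm.injective)]
      exact h3
  · rintro ⟨f, h1, h2⟩
    refine ⟨fun u i => zb (f u i), fun u v h => h1 ?_, fun u v h => ?_⟩
    · funext i
      exact zb.injective (congrFun h i)
    · have h3 := h2 u v h
      rw [← hammingDist_comp (fun _ => zb) (fun _ => zb.injective)] at h3
      exact h3

theorem embQ_iff' (n k : ℕ) (a : Fin k → ℕ) : EmbQ (Cat k a) n ↔ ∃ f, IsE n k a f :=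
  embQ_iff _ _

theorem s_FIN (hLOW : S_LOW) (hCNT : S_CNT) (hUPP : S_UPP) (hTOK : S_TOK) (hSNK : S_SNK)
    (hGEO : S_GEO) : S_FIN := by
  intro k a D hD1 hD hD'
  have hsn : ∀ n, Short k n → ∃ X, Snake n k X := by
    rintro n (h | ⟨p, r, h1, h2, h3, h4⟩)
    · exact hGEO n k h
    · exact hSNK p r n k h1 h2 h3 h4
  have hlow : ∀ n, EmbQ (Cat k a) n → D ≤ n := by
    intro n hn
    obtain ⟨f, hf⟩ := (embQ_iff' n k a).1 hn
    obtain ⟨i, hi⟩ := hD'
    have h1 := hCNT n k a f hf i ∅ (by simp)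
    simp only [Finset.card_empty, add_zero, hi] at h1
    exact h1
  have hlow2 : ¬ Sep k a D → ∀ n, EmbQ (Cat k a) n → D + 1 ≤ n := by
    intro hS n hn
    by_contra hlt
    have h1 := hlow n hn
    have h2 : n = D := by omega
    subst h2
    obtain ⟨f, hf⟩ := (embQ_iff' n k a).1 hn
    unfold Sep at hS
    push Not at hS
    obtain ⟨i, j, h3, h4, h5, h6, h7⟩ := hS
    refine hLOW n k a f hf i j h3 h4 h5 h6 fun h h8 h9 h10 => ?_
    have h11 := h7 h h8 h9 h10
    omega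
  have hup : ∀ n, D + 1 ≤ n → Short k n → EmbQ (Cat k a) n := by
    intro n hn hs
    obtain ⟨X, hX⟩ := hsn n hs
    refine (embQ_iff' n k a).2 (hUPP n k a X (fun _ => False) hX fun i => ?_)
    have h1 := hD i
    refine ⟨fun _ h => h.2.elim, fun _ => ?_, ?_⟩ <;> omega
  have hup2 : Sep k a D → Short k D → EmbQ (Cat k a) D := by
    intro hS hs
    obtain ⟨X, hX⟩ := hsn D hs
    obtain ⟨G, hG⟩ := hTOK k a D hD hS
    exact (embQ_iff' D k a).2 (hUPP D k a X G hX hG)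
  have hmono : ∀ n, Short k n → Short k (n + 1) := by
    rintro n (h | ⟨p, r, h1, h2, h3, h4⟩)
    · exact Or.inl (by omega)
    · exact Or.inr ⟨p, r, h1, h2, by omega, h4⟩
  refine ⟨hlow2, fun hs => ⟨fun hS => ?_, fun hS => ?_⟩, fun n hn hs => ?_⟩
  · have h1 : D ∈ {n | 1 ≤ n ∧ EmbQ (Cat k a) n} := ⟨hD1, hup2 hS hs⟩
    refine le_antisymm (Nat.sInf_le h1) ?_
    exact hlow _ (Nat.sInf_mem ⟨D, h1⟩).2
  · have h1 : D + 1 ∈ {n | 1 ≤ n ∧ EmbQ (Cat k a) n} :=
      ⟨by omega, hup (D + 1) le_rfl (hmono D hs)⟩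
    refine le_antisymm (Nat.sInf_le h1) ?_
    exact hlow2 hS _ (Nat.sInf_mem ⟨D + 1, h1⟩).2
  · exact Nat.sInf_le ⟨by omega, hup n hn hs⟩

end Pool.Agent.L7h95.CD
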