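import Pool.Agent.L7h95.CD.Stm3
import Pool.Agent.L7h95.CD.Fin

set_option autoImplicit false

/-!
# Project CD: caterpillars with few leaves
-/

namespace Pool.Agent.L7h95.CD

open Finset Function

theorem clog_add (x y : ℕ) (hx : 1 ≤ x) (hy : 1 ≤ y) :
    Nat.clog 2 x + Nat.clog 2 y ≤ Nat.clog 2 (x * y) + 1 := by
  rcases Nat.lt_or_ge x 2 with h1 | h1
  · have : x = 1 := by omega
    subst this
    simp
  · rcases Nat.lt_or_ge y 2 with h2 | h2
    · have : y = 1 := by omega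
      subst this
      simp
    · have h3 : 2 ^ (Nat.clog 2 x).pred < x := Nat.pow_pred_clog_lt_self (by norm_num) h1
      have h4 : 2 ^ (Nat.clog 2 y).pred < y := Nat.pow_pred_clog_lt_self (by norm_num) h2
      have h5 : x * y ≤ 2 ^ (Nat.clog 2 (x * y)) := Nat.le_pow_clog (by norm_num) _
      have h6 : 2 ^ ((Nat.clog 2 x).pred + (Nat.clog 2 y).pred) < 2 ^ (Nat.clog 2 (x * y)) := by
        rw [pow_add]
        exact (Nat.mul_lt_mul'' h3 h4).trans_le h5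
      have h7 := (Nat.pow_lt_pow_iff_right (by norm_num)).1 h6
      have h8 : (Nat.clog 2 x).pred = Nat.clog 2 x - 1 := rfl
      have h9 : (Nat.clog 2 y).pred = Nat.clog 2 y - 1 := rfl
      omega

theorem few (h6 : S_U6) (k A : ℕ) (al : Fin k → ℕ) (hk : 1 ≤ k) (hA : 1 ≤ A)
    (hal : ∀ i, al i ≤ A) :
    cd (Cat k al) ≤ max (Nat.clog 2 k + Nat.clog 2 (A + 1) + 2) (A + 2 ^ Nat.clog 2 (A + 1) + 1) ∧
    ((∀ i, al i = A) → Nat.clog 2 (k * (A + 1)) ≤ cd (Cat k al) ∧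
      (A + 2 ^ Nat.clog 2 (A + 1) ≤ Nat.clog 2 k + Nat.clog 2 (A + 1) + 1 →
        cd (Cat k al) ≤ Nat.clog 2 (k * (A + 1)) + 3)) := by
  have ht1 : 1 ≤ Nat.clog 2 (A + 1) := Nat.clog_pos (by norm_num) (by omega)
  have hAt : A + 1 ≤ 2 ^ Nat.clog 2 (A + 1) := Nat.le_pow_clog (by norm_num) _
  have hkK : k ≤ 2 ^ Nat.clog 2 k := Nat.le_pow_clog (by norm_num) _
  have htt : Nat.clog 2 (A + 1) < 2 ^ Nat.clog 2 (A + 1) := Nat.lt_two_pow_self
  obtain ⟨n, hn⟩ : ∃ n, n = max (Nat.clog 2 k + Nat.clog 2 (A + 1) + 2)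
    (A + 2 ^ Nat.clog 2 (A + 1) + 1) := ⟨_, rfl⟩
  have hn1 : Nat.clog 2 k + Nat.clog 2 (A + 1) + 2 ≤ n := hn ▸ le_max_left _ _
  have hn2 : A + 2 ^ Nat.clog 2 (A + 1) + 1 ≤ n := hn ▸ le_max_right _ _
  have hemb : EmbQ (Cat k al) n := by
    refine (embQ_iff' n k al).2 (h6 (Nat.clog 2 (A + 1)) (n - 2 ^ Nat.clog 2 (A + 1) - 1) n k A al
      ht1 (by omega) (by omega) hAt (by omega) ?_ hal)
    refine hkK.trans (Nat.pow_le_pow_right (by norm_num) (by omega))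
  have hmem : n ∈ {n | 1 ≤ n ∧ EmbQ (Cat k al) n} := ⟨by omega, hemb⟩
  have hle : cd (Cat k al) ≤ n := Nat.sInf_le hmem
  refine ⟨hn ▸ hle, fun hall => ⟨?_, fun hc => ?_⟩⟩
  · obtain ⟨f, hf, -⟩ := (Nat.sInf_mem ⟨n, hmem⟩).2
    have h7 := Fintype.card_le_of_injective f hf
    rw [Fintype.card_sum, Fintype.card_sigma] at h7
    simp only [Fintype.card_fin, Fintype.card_fun, Fintype.card_bool, hall, Finset.sum_const,
      Finset.card_univ, smul_eq_mul] at h7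
    refine Nat.clog_le_of_le_pow ?_
    refine le_trans (le_of_eq ?_) h7
    ring
  · have h8 := clog_add k (A + 1) hk (by omega)
    have h9 : n ≤ Nat.clog 2 k + Nat.clog 2 (A + 1) + 2 := by
      rw [hn]
      exact max_le le_rfl (by omega)
    omega

end Pool.Agent.L7h95.CD
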