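import Pool.Agent.L7h95.CD.Stm

set_option autoImplicit false

/-!
# Project CD, parts NB, CNT, GEO
-/

namespace Pool.Agent.L7h95.CD

open Finset Function

theorem zadd (x y : ZMod 2) : x ≠ y ↔ y = x + 1 := by revert x y; decide

theorem s_NB : S_NB := by
  intro ι _ _ x y
  unfold hammingDist
  rw [Finset.card_eq_one]
  constructor
  · rintro ⟨c, hc⟩
    refine ⟨c, funext fun i => ?_⟩
    by_cases h : i = c
    · subst h
      have h1 : i ∈ univ.filter fun i => x i ≠ y i := by rw [hc]; exact mem_singleton_self i
      rw [Pi.add_apply, Pi.single_eq_same]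
      exact (zadd _ _).1 (mem_filter.1 h1).2
    · have h1 : i ∉ univ.filter fun i => x i ≠ y i := by rw [hc]; simpa using h
      rw [Pi.add_apply, Pi.single_eq_of_ne h, add_zero]
      by_contra h2
      exact h1 (mem_filter.2 ⟨mem_univ _, fun h3 => h2 h3.symm⟩)
  · rintro ⟨c, rfl⟩
    refine ⟨c, ?_⟩
    ext i
    simp only [mem_filter, mem_univ, true_and, mem_singleton, Pi.add_apply]
    by_cases h : i = c
    · subst h
      simp
    · simp [Pi.single_eq_of_ne h, h]

theorem s_GEO : S_GEO := by
  intro n k hk
  have key : ∀ i j : ℕ, i < j → j < k →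
      hammingDist (fun c : Fin n => if c.1 < i then (1 : ZMod 2) else 0)
        (fun c : Fin n => if c.1 < j then (1 : ZMod 2) else 0) = j - i := by
    intro i j hij hj
    unfold hammingDist
    have h1 : (univ.filter fun c : Fin n => (if c.1 < i then (1 : ZMod 2) else 0) ≠
        if c.1 < j then (1 : ZMod 2) else 0) = (Finset.Ico i j).attachFin (n := n) (fun m hm => by
          rw [Finset.mem_Ico] at hm; omega) := by
      ext c
      simp only [mem_filter, mem_univ, true_and, Finset.mem_attachFin, Finset.mem_Ico]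
      by_cases h2 : c.1 < i <;> by_cases h3 : c.1 < j <;> simp [h2, h3] <;> omega
    rw [h1, Finset.card_attachFin, Nat.card_Ico]
  refine ⟨fun i c => if c.1 < i then 1 else 0, fun i hi => ?_, fun i j hij hj => ?_⟩
  · rw [key i (i + 1) (by omega) hi]; omega
  · rw [key i j hij hj]; exact min_le_right _ _

theorem s_CNT (hNB : S_NB) : S_CNT := by
  classical
  intro n k a f hf i W hW
  let x := f (.inl i)
  let N : Finset (Fin n → ZMod 2) := univ.image fun c : Fin n => x + Pi.single c 1
  have hN : N.card ≤ n := by
    refine Finset.card_image_le.trans ?_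
    simp
  have hmem : ∀ w, hammingDist x w = 1 → w ∈ N := by
    intro w hw
    obtain ⟨c, hc⟩ := (hNB (Fin n) x w).1 hw
    exact Finset.mem_image.2 ⟨c, mem_univ _, hc.symm⟩
  -- the tree neighbours
  let T1 : Finset (Fin k ⊕ (Σ i : Fin k, Fin (a i))) :=
    (univ : Finset (Fin (a i))).image fun l => Sum.inr ⟨i, l⟩
  let T2 : Finset (Fin k ⊕ (Σ i : Fin k, Fin (a i))) :=
    if h : i.1 = 0 then ∅ else {Sum.inl ⟨i.1 - 1, by omega⟩}
  let T3 : Finset (Fin k ⊕ (Σ i : Fin k, Fin (a i))) :=
    if h : i.1 + 1 = k then ∅ else {Sum.inl ⟨i.1 + 1, by omega⟩}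
  have c1 : T1.card = a i := by
    rw [Finset.card_image_of_injective _ (fun l l' h => by simpa using h)]
    simp
  have c2 : T2.card = if i.1 = 0 then 0 else 1 := by
    simp only [T2]; split_ifs <;> simp
  have c3 : T3.card = if i.1 + 1 = k then 0 else 1 := by
    simp only [T3]; split_ifs <;> simp
  have d12 : Disjoint T1 T2 := by
    rw [Finset.disjoint_left]
    intro u h1 h2
    obtain ⟨l, -, rfl⟩ := Finset.mem_image.1 h1
    simp only [T2] at h2
    split_ifs at h2 <;> simp at h2
  have d13 : Disjoint (T1 ∪ T2) T3 := by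
    rw [Finset.disjoint_left]
    intro u h1 h2
    simp only [T3] at h2
    split_ifs at h2 with h3
    · simp at h2
    · rw [mem_singleton] at h2
      subst h2
      rcases Finset.mem_union.1 h1 with h4 | h4
      · obtain ⟨l, -, h5⟩ := Finset.mem_image.1 h4
        simp at h5
      · simp only [T2] at h4
        split_ifs at h4 with h5
        · simp at h4
        · rw [mem_singleton, Sum.inl.injEq, Fin.mk.injEq] at h4
          omega
  have hT : ∀ u ∈ (T1 ∪ T2) ∪ T3, (Cat k a).Adj (.inl i) u := by
    intro u hu
    rcases Finset.mem_union.1 hu with hu | hu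
    · rcases Finset.mem_union.1 hu with hu | hu
      · obtain ⟨l, -, rfl⟩ := Finset.mem_image.1 hu
        rfl
      · simp only [T2] at hu
        split_ifs at hu with h5
        · simp at hu
        · rw [mem_singleton] at hu
          subst hu
          exact Or.inr (by show i.1 - 1 + 1 = i.1; omega)
    · simp only [T3] at hu
      split_ifs at hu with h5
      · simp at hu
      · rw [mem_singleton] at hu
        subst hu
        exact Or.inl rfl
  have hcard : ((T1 ∪ T2) ∪ T3).card = dg k a i := by
    rw [Finset.card_union_of_disjoint d13, Finset.card_union_of_disjoint d12, c1, c2, c3]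
    rfl
  have hd : Disjoint (((T1 ∪ T2) ∪ T3).image f) W := by
    rw [Finset.disjoint_left]
    intro w h1 h2
    obtain ⟨u, hu, rfl⟩ := Finset.mem_image.1 h1
    exact (hW _ h2).2 u (hT u hu) rfl
  have hsub : (((T1 ∪ T2) ∪ T3).image f) ∪ W ⊆ N := by
    intro w hw
    rcases Finset.mem_union.1 hw with hw | hw
    · obtain ⟨u, hu, rfl⟩ := Finset.mem_image.1 hw
      exact hmem _ (hf.2 _ _ (hT u hu))
    · exact hmem _ (hW w hw).1
  have h9 := Finset.card_le_card hsub
  rw [Finset.card_union_of_disjoint hd, Finset.card_image_of_injective _ hf.1, hcard] at h9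
  exact h9.trans hN

end Pool.Agent.L7h95.CD
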