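import Pool.Agent.L7h95.CD.Stm

set_option autoImplicit false

/-!
# Project CD, third stage: caterpillars with few leaves

THEOREM. Let `s = 2 ^ t - 1`, `A ≤ s`, `A ≤ m`, `k ≤ 2 ^ (m + s - t)`. Each caterpillar with `k` spine vertices and at most `A` leaves at each of them
embeds in the cube of dimension `m + s + 2`. So `cd ≤ ⌈log k⌉ + ⌈log (A + 1)⌉ + 2` if `A` is at most about `(log k) / 3`, while `cd ≥ log |V|`.

CONSTRUCTION. The cube is `Fin m ⊕ Fin s ⊕ Fin 2`. Let `z_0, z_1, ...` be the words of a Hamming code in `Fin s → ZMod 2` such that `z_{q+1} = z_q + e_a + e_b + e_c`,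
`u_0, ..., u_{M-1}` a Gray code (`M = 2 ^ m`). The spine runs through `(u_r, z_q, 00)`, `r = 0, ..., M-1` if `q` is even and backwards if `q` is odd, then
through the four points `(end, y, layer)` with `y = z_q, z_q + e_a, z_q + e_a + e_b, z_{q+1}`, then the next block follows. The leaves at `(u, z, 00)` are the `(u, z + e_j, 00)`, those
at the points `(u, y, layer)` of the other two layers are the `(u + e_j, y, layer)`.
-/

namespace Pool.Agent.L7h95.CD

open Finset Function

/-- U1 (100 lines, no hypotheses). Hamming codes have a basis of words of weight 3.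

Proof. Number the coordinates by `1, ..., 2 ^ t - 1`. For each `v` in this range which is not a power of 2 let `x` be the largest power of 2 below `v`, `h_v` the word with support `{v, x, v - x}`
(`v ^^^ x ^^^ (v - x) = 0`); there are `2 ^ t - 1 - t` such `v`. A nonzero combination is nonzero (the largest `v` in it is in the support), and the sum (xor) of its support is zero, so
its weight is not 1 and not 2. (Or by induction on `t`.) -/
def S_U1 : Prop := ∀ t : ℕ, 1 ≤ t → ∃ h : Fin (2 ^ t - 1 - t) → Fin (2 ^ t - 1) → ZMod 2,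
  (∀ j, ∃ a b c, a ≠ b ∧ a ≠ c ∧ b ≠ c ∧ h j = Pi.single a 1 + Pi.single b 1 + Pi.single c 1) ∧
  ∀ γ : Fin (2 ^ t - 1 - t) → ZMod 2, γ ≠ 0 → 3 ≤ hammingDist (fun i => ∑ j, γ j * h j i) 0

/-- a path through a code of distance 3 with steps of weight 3 -/
structure CodeP (s N : ℕ) (z : ℕ → Fin s → ZMod 2) (a b c : ℕ → Fin s) : Prop where
  ab : ∀ q, q + 1 < N → a q ≠ b q ∧ a q ≠ c q ∧ b q ≠ c q
  step : ∀ q, q + 1 < N → z (q + 1) = z q + Pi.single (a q) 1 + Pi.single (b q) 1 + Pi.single (c q) 1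
  far : ∀ q q', q < q' → q' < N → 3 ≤ hammingDist (z q) (z q')

/-- U2 (50 lines), hypotheses U1, GRA. `z q = ∑ j, γ q j • h j`. (`t = 1`: `N = 1`; `a b c` arbitrary.) -/
def S_U2 : Prop := ∀ t : ℕ, 1 ≤ t → ∃ z a b c, CodeP (2 ^ t - 1) (2 ^ (2 ^ t - 1 - t)) z a b c

/-- the point `(u, y, layer)` -/
def pt {m s : ℕ} (u : Fin m → ZMod 2) (y : Fin s → ZMod 2) (x : Fin 2 → ZMod 2) :
    Fin m ⊕ (Fin s ⊕ Fin 2) → ZMod 2 := Sum.elim u (Sum.elim y x)

/-- the layer of the transitions after block `q` -/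
def lay (q : ℕ) : Fin 2 → ZMod 2 := if q % 2 = 0 then Pi.single 0 1 else Pi.single 1 1

/-- the `r`-th point of block `q` (`M + 4` points, `M = 2 ^ m`) -/
def bp {m s : ℕ} (γ : ℕ → Fin m → ZMod 2) (z : ℕ → Fin s → ZMod 2) (a b : ℕ → Fin s) (q r : ℕ) :
    Fin m ⊕ (Fin s ⊕ Fin 2) → ZMod 2 :=
  if r < 2 ^ m then pt (if q % 2 = 0 then γ r else γ (2 ^ m - 1 - r)) (z q) 0
  else pt (if q % 2 = 0 then γ (2 ^ m - 1) else γ 0)
    (if r = 2 ^ m then z q else if r = 2 ^ m + 1 then z q + Pi.single (a q) 1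
      else if r = 2 ^ m + 2 then z q + Pi.single (a q) 1 + Pi.single (b q) 1 else z (q + 1)) (lay q)

/-- the leaves of block `q` at the `r`-th point -/
def lf {m s : ℕ} (γ : ℕ → Fin m → ZMod 2) (z : ℕ → Fin s → ZMod 2) (a b : ℕ → Fin s) (q r : ℕ)
    {A : ℕ} (hm : A ≤ m) (hs : A ≤ s) (j : Fin A) : Fin m ⊕ (Fin s ⊕ Fin 2) → ZMod 2 :=
  bp γ z a b q r + if r < 2 ^ m then pt 0 (Pi.single (Fin.castLE hs j) 1) 0
    else pt (Pi.single (Fin.castLE hm j) 1) 0 0

/-- U3 (60 lines, no hypotheses). Consecutive points are adjacent (inside a block, and from a block to the next one). -/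
def S_U3 : Prop := ∀ (m s N : ℕ) (c0 : ℕ → Fin m) (γ : ℕ → Fin m → ZMod 2) (z : ℕ → Fin s → ZMod 2)
  (a b c : ℕ → Fin s), Gray m c0 γ → CodeP s N z a b c →
  (∀ q r, q < N → r + 1 < 2 ^ m → hammingDist (bp γ z a b q r) (bp γ z a b q (r + 1)) = 1) ∧
  (∀ q r, q + 1 < N → r + 1 < 2 ^ m + 4 →
    hammingDist (bp γ z a b q r) (bp γ z a b q (r + 1)) = 1) ∧
  (∀ q, q + 1 < N → hammingDist (bp γ z a b q (2 ^ m + 3)) (bp γ z a b (q + 1) 0) = 1)

/-- a point of the path: the last block has no transition -/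
def Ok (m N q r : ℕ) : Prop := (q < N ∧ r < 2 ^ m) ∨ (q + 1 < N ∧ r < 2 ^ m + 4)

/-- U4 (100 lines, no hypotheses). The points of the path are different. (Layers; for the transitions `y` is in the ball of radius 1 of `z q` or `z (q + 1)`, the balls are
disjoint by `far`, and `q`, `q'` have the same parity if the layers agree.) -/
def S_U4 : Prop := ∀ (m s N : ℕ) (c0 : ℕ → Fin m) (γ : ℕ → Fin m → ZMod 2) (z : ℕ → Fin s → ZMod 2)
  (a b c : ℕ → Fin s), Gray m c0 γ → CodeP s N z a b c → ∀ q r q' r', Ok m N q r → Ok m N q' r' →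
  bp γ z a b q r = bp γ z a b q' r' → q = q' ∧ r = r'

/-- U5 (100 lines), hypothesis U4. The leaves are different from the points of the path and from each other. (In the layer 00: `z q + e_j` is not `z q'` and determines `q` and `j` by `far`, and `u`
determines `r`. In the other layers: the point without its `u` part is that of the path, and the `u` part `γ 0 + e_j` (or `γ (M-1) + e_j`) differs from that of the path and determines `j`.) -/
def S_U5 : Prop := ∀ (m s N : ℕ) (c0 : ℕ → Fin m) (γ : ℕ → Fin m → ZMod 2) (z : ℕ → Fin s → ZMod 2)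
  (a b c : ℕ → Fin s), Gray m c0 γ → CodeP s N z a b c → ∀ (A : ℕ) (hm : A ≤ m) (hs : A ≤ s),
  (∀ q r q' r' (j : Fin A), Ok m N q r → Ok m N q' r' →
    lf γ z a b q r hm hs j ≠ bp γ z a b q' r') ∧
  (∀ q r q' r' (j j' : Fin A), Ok m N q r → Ok m N q' r' →
    lf γ z a b q r hm hs j = lf γ z a b q' r' hm hs j' → q = q' ∧ r = r' ∧ j = j')

/-- U6 (100 lines), hypotheses GRA, NB, U2, U3, U4, U5. The embedding: `v_i` is mapped to `bp (i / (M + 4)) (i % (M + 4))`, then the cube on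
`Fin m ⊕ Fin s ⊕ Fin 2` is mapped to the cube of dimension `n` by an injection of the coordinates. (`k ≤ 2 ^ (m + s - t) = N M`, so all indices are `Ok`.) -/
def S_U6 : Prop := ∀ (t m n k A : ℕ) (al : Fin k → ℕ), 1 ≤ t → 1 ≤ m → A ≤ m → A + 1 ≤ 2 ^ t →
  m + 2 ^ t + 1 ≤ n → k ≤ 2 ^ (m + 2 ^ t - 1 - t) → (∀ i, al i ≤ A) → ∃ f, IsE n k al f

end Pool.Agent.L7h95.CD
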