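import Pool.Agent.L7h95.CD.Stm3
import Pool.Agent.L7h47.CD.Snk

set_option autoImplicit false

/-!
# Project CD, part U6: the embedding of caterpillars with few leaves
-/

namespace Pool.Agent.L7h95.CD

open Finset Function

theorem dm_of (B i : ℕ) (hB : 0 < B) :
    (i % B + 1 < B → (i + 1) / B = i / B ∧ (i + 1) % B = i % B + 1) ∧
    (i % B + 1 = B → (i + 1) / B = i / B + 1 ∧ (i + 1) % B = 0) := by
  have h := Nat.div_add_mod i B
  constructor
  · intro h1
    have h2 : i + 1 = B * (i / B) + (i % B + 1) := by omega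
    constructor
    · conv_lhs => rw [h2]
      rw [Nat.mul_add_div hB, Nat.div_eq_of_lt h1, add_zero]
    · conv_lhs => rw [h2]
      rw [Nat.mul_add_mod, Nat.mod_eq_of_lt h1]
  · intro h1
    have h2 : i + 1 = B * (i / B + 1) := by
      rw [Nat.mul_add, Nat.mul_one]
      omega
    constructor
    · conv_lhs => rw [h2]
      rw [Nat.mul_div_cancel_left _ hB]
    · conv_lhs => rw [h2]
      rw [Nat.mul_mod_right]

theorem ok_of {m N k i : ℕ} (hk : k ≤ N * 2 ^ m) (hi : i < k) :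
    Ok m N (i / (2 ^ m + 4)) (i % (2 ^ m + 4)) := by
  have h1 := Nat.div_add_mod i (2 ^ m + 4)
  have h2 : i % (2 ^ m + 4) < 2 ^ m + 4 := Nat.mod_lt _ (by positivity)
  unfold Ok
  generalize i / (2 ^ m + 4) = q at *
  generalize i % (2 ^ m + 4) = r at *
  generalize 2 ^ m = M at *
  rcases Nat.lt_or_ge (q + 1) N with h | h
  · exact Or.inr ⟨h, h2⟩
  · left
    have h3 : N * M ≤ (q + 1) * M := Nat.mul_le_mul_right _ h
    constructor
    · by_contra h4
      have h5 : N * M ≤ q * M := Nat.mul_le_mul_right _ (not_lt.1 h4)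
      nlinarith
    · by_contra h4
      nlinarith

theorem s_U6 (hGRA : S_GRA) (hNB : S_NB) (hU2 : S_U2) (hU3 : S_U3) (hU4 : S_U4) (hU5 : S_U5) :
    S_U6 := by
  intro t m n k A al ht hm hAm hAt hn hk hal
  obtain ⟨z, a, b, c, hz⟩ := hU2 t ht
  obtain ⟨c0, γ, hγ⟩ := hGRA m hm
  have hts : t < 2 ^ t := Nat.lt_two_pow_self
  have hs : A ≤ 2 ^ t - 1 := by omega
  have hk2 : k ≤ 2 ^ (2 ^ t - 1 - t) * 2 ^ m := by
    rw [← pow_add]
    refine hk.trans (Nat.pow_le_pow_right (by norm_num) (by omega))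
  generalize hN : 2 ^ (2 ^ t - 1 - t) = N at hz hk2
  obtain ⟨h31, h32, h33⟩ := hU3 m _ N c0 γ z a b c hγ hz
  have h4 := hU4 m _ N c0 γ z a b c hγ hz
  obtain ⟨h51, h52⟩ := hU5 m _ N c0 γ z a b c hγ hz A hAm hs
  have hcard : Fintype.card (Fin m ⊕ (Fin (2 ^ t - 1) ⊕ Fin 2)) ≤ Fintype.card (Fin n) := by
    simp only [Fintype.card_sum, Fintype.card_fin]
    omega
  obtain ⟨e⟩ := Function.Embedding.nonempty_of_card_le hcard
  let P : ℕ → Fin m ⊕ (Fin (2 ^ t - 1) ⊕ Fin 2) → ZMod 2 := fun i =>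
    bp γ z a b (i / (2 ^ m + 4)) (i % (2 ^ m + 4))
  let Lv : ℕ → Fin A → Fin m ⊕ (Fin (2 ^ t - 1) ⊕ Fin 2) → ZMod 2 := fun i j =>
    lf γ z a b (i / (2 ^ m + 4)) (i % (2 ^ m + 4)) hAm hs j
  have hstep : ∀ i, i + 1 < k → hammingDist (P i) (P (i + 1)) = 1 := by
    intro i hi
    have o2 := ok_of hk2 hi
    have g2 : i % (2 ^ m + 4) < 2 ^ m + 4 := Nat.mod_lt _ (by positivity)
    obtain ⟨d1, d2⟩ := dm_of (2 ^ m + 4) i (by positivity)
    rcases Nat.lt_or_ge (i % (2 ^ m + 4) + 1) (2 ^ m + 4) with h | h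
    · obtain ⟨e1, e2⟩ := d1 h
      simp only [P]
      rw [e1, e2] at o2 ⊢
      rcases o2 with ⟨o3, o4⟩ | ⟨o3, o4⟩
      · exact h31 _ _ o3 o4
      · exact h32 _ _ o3 o4
    · have g4 : i % (2 ^ m + 4) = 2 ^ m + 3 := by omega
      obtain ⟨e1, e2⟩ := d2 (by omega)
      simp only [P]
      rw [e1, e2] at o2 ⊢
      rw [g4]
      refine h33 _ ?_
      rcases o2 with ⟨o3, o4⟩ | ⟨o3, o4⟩
      · exact o3
      · omega
  have hinjP : ∀ i j, i < k → j < k → P i = P j → i = j := by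
    intro i j hi hj h
    obtain ⟨h1, h2⟩ := h4 _ _ _ _ (ok_of hk2 hi) (ok_of hk2 hj) h
    rw [← Nat.div_add_mod i (2 ^ m + 4), ← Nat.div_add_mod j (2 ^ m + 4), h1, h2]
  have hPL : ∀ i i' j, i < k → i' < k → Lv i j ≠ P i' := by
    intro i i' j hi hi'
    exact h51 _ _ _ _ j (ok_of hk2 hi) (ok_of hk2 hi')
  have hinjL : ∀ i i' j j', i < k → i' < k → Lv i j = Lv i' j' → i = i' ∧ j = j' := by
    intro i i' j j' hi hi' h
    obtain ⟨h1, h2, h3⟩ := h52 _ _ _ _ j j' (ok_of hk2 hi) (ok_of hk2 hi') h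
    refine ⟨?_, h3⟩
    rw [← Nat.div_add_mod i (2 ^ m + 4), ← Nat.div_add_mod i' (2 ^ m + 4), h1, h2]
  have hadj : ∀ i j, hammingDist (P i) (Lv i j) = 1 := by
    intro i j
    refine (hNB _ _ _).2 ?_
    simp only [Lv, P, lf]
    split_ifs
    · refine ⟨.inr (.inl (Fin.castLE hs j)), ?_⟩
      congr 1
      funext x
      rcases x with x | x | x
      · simp [pt]
      · by_cases hx : x = Fin.castLE hs j
        · subst hx; simp [pt]
        · simp [pt, Pi.single_apply, hx]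
      · simp [pt]
    · refine ⟨.inl (Fin.castLE hAm j), ?_⟩
      congr 1
      funext x
      rcases x with x | x | x
      · by_cases hx : x = Fin.castLE hAm j
        · subst hx; simp [pt]
        · simp [pt, Pi.single_apply, hx]
      · simp [pt]
      · simp [pt]
  have hext : ∀ x y : Fin m ⊕ (Fin (2 ^ t - 1) ⊕ Fin 2) → ZMod 2,
      extend e x 0 = extend e y 0 → x = y := by
    intro x y h
    funext i
    have h1 := congrFun h (e i)
    rwa [e.injective.extend_apply, e.injective.extend_apply] at h1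
  refine ⟨fun u => match u with
    | .inl i => extend e (P i.1) 0
    | .inr l => extend e (Lv l.1.1 (Fin.castLE (hal l.1) l.2)) 0, ?_, ?_⟩
  · rintro (i | ⟨i, l⟩) (j | ⟨j, l'⟩) h
    · exact congrArg Sum.inl (Fin.ext (hinjP _ _ i.2 j.2 (hext _ _ h)))
    · exact (hPL _ _ _ j.2 i.2 (hext _ _ h).symm).elim
    · exact (hPL _ _ _ i.2 j.2 (hext _ _ h)).elim
    · obtain ⟨h1, h2⟩ := hinjL _ _ _ _ i.2 j.2 (hext _ _ h)
      have h3 : i = j := Fin.ext h1
      subst h3
      have h4 : l = l' := by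
        have := congrArg Fin.val h2
        exact Fin.ext (by simpa using this)
      rw [h4]
  · have hsymm : ∀ i l, hammingDist (extend e (P i) 0) (extend e (Lv i l) 0) = 1 := by
      intro i l
      rw [Pool.Agent.L7h47.CD.hammingDist_extend]
      exact hadj i l
    rintro (i | ⟨i, l⟩) (j | ⟨j, l'⟩) h
    · show hammingDist (extend e (P i.1) 0) (extend e (P j.1) 0) = 1
      rw [Pool.Agent.L7h47.CD.hammingDist_extend]
      rcases h with h | h
      · have h5 : j.1 = i.1 + 1 := h.symm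
        rw [h5]
        exact hstep _ (by rw [← h5]; exact j.2)
      · have h5 : i.1 = j.1 + 1 := h.symm
        rw [h5, hammingDist_comm]
        exact hstep _ (by rw [← h5]; exact i.2)
    · have h5 : j = i := h
      subst h5
      exact hsymm _ _
    · have h5 : i = j := h
      subst h5
      show hammingDist (extend e (Lv i.1 _) 0) (extend e (P i.1) 0) = 1
      rw [hammingDist_comm]
      exact hsymm _ _
    · exact h.elim

end Pool.Agent.L7h95.CD
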